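import Pool.Agent.FHQ.StmtsU

set_option autoImplicit false

noncomputable section

namespace Pool.Agent.FHQ.H2

open Polynomial

/-- the monic polynomial of degree `a` with given coefficients -/
def G {S : Type} [CommRing S] (a e : ℕ) (c : Fin a × Fin (e + 1) → S) : S[X][X] :=
  X ^ a + ∑ i : Fin a, C (∑ j : Fin (e + 1), C (c (i, j)) * X ^ (j : ℕ)) * X ^ (i : ℕ)

theorem G_map {S T : Type} [CommRing S] [CommRing T] (φ : S →+* T) (a e : ℕ)
    (c : Fin a × Fin (e + 1) → S) :
    (G a e c).map (mapRingHom φ) = G a e (fun q => φ (c q)) := by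
  unfold G
  rw [Polynomial.map_add, Polynomial.map_pow, Polynomial.map_X, Polynomial.map_sum]
  apply congrArg
  apply Finset.sum_congr rfl
  intro i _
  rw [Polynomial.map_mul, Polynomial.map_pow, Polynomial.map_X, Polynomial.map_C, map_sum]
  apply congrArg (fun z => z * X ^ (i : ℕ))
  apply congrArg
  apply Finset.sum_congr rfl
  intro j _
  rw [map_mul, map_pow, coe_mapRingHom, Polynomial.map_C, Polynomial.map_X]

theorem G_deg {S : Type} [CommRing S] (a e : ℕ) (c : Fin a × Fin (e + 1) → S) :
    (∑ i : Fin a, C (∑ j : Fin (e + 1), C (c (i, j)) * X ^ (j : ℕ)) * X ^ (i : ℕ) :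
      S[X][X]).degree < a := by
  exact degree_sum_fin_lt _

theorem G_monic {S : Type} [CommRing S] (a e : ℕ) (c : Fin a × Fin (e + 1) → S) :
    (G a e c).Monic := monic_X_pow_add (G_deg a e c)

theorem G_natDegree {S : Type} [CommRing S] [Nontrivial S] (a e : ℕ)
    (c : Fin a × Fin (e + 1) → S) : (G a e c).natDegree = a := by
  unfold G
  rw [natDegree_add_eq_left_of_degree_lt]
  · exact natDegree_X_pow a
  · rw [degree_X_pow]
    exact G_deg a e c

theorem eq_G {S : Type} [CommRing S] (f : S[X][X]) (hf : f.Monic) (e : ℕ)
    (he : ∀ i, (f.coeff i).natDegree ≤ e) :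
    f = G f.natDegree e (fun q => (f.coeff q.1).coeff q.2) := by
  conv_lhs => rw [hf.as_sum]
  unfold G
  apply congrArg
  rw [Finset.sum_range]
  apply Finset.sum_congr rfl
  intro i _
  apply congrArg (fun z => C z * X ^ (i : ℕ))
  conv_lhs => rw [(f.coeff (i : ℕ)).as_sum_range_C_mul_X_pow' (Nat.lt_succ_of_le (he i))]
  rw [Finset.sum_range]

theorem abs' : AbsStmt := by
  classical
  intro K L _ _ _ _ h hm hirr
  have hmL : (h.map (mapRingHom (algebraMap K L))).Monic := hm.map _
  have hK := (hm.irreducible_iff_natDegree).1 hirr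
  rw [hmL.irreducible_iff_natDegree]
  constructor
  · intro h1
    have hd : (h.map (mapRingHom (algebraMap K L))).natDegree = h.natDegree :=
      hm.natDegree_map _
    rw [h1, natDegree_one] at hd
    have : h = 1 := Polynomial.eq_one_of_monic_natDegree_zero hm hd.symm
    exact hK.1 this
  · intro f g hf hg hfg
    by_contra hcon
    rw [not_or] at hcon
    obtain ⟨hf0, hg0⟩ := hcon
    -- bound for the degrees
    obtain ⟨e, hef, heg⟩ : ∃ e : ℕ, (∀ i, (f.coeff i).natDegree ≤ e) ∧
        ∀ i, (g.coeff i).natDegree ≤ e := by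
      refine ⟨f.support.sup (fun i => (f.coeff i).natDegree) +
        g.support.sup (fun i => (g.coeff i).natDegree), ?_, ?_⟩
      · intro i
        by_cases hi : i ∈ f.support
        · exact (Finset.le_sup (f := fun i => (f.coeff i).natDegree) hi).trans
            (Nat.le_add_right _ _)
        · rw [mem_support_iff, not_not] at hi
          rw [hi, natDegree_zero]
          exact Nat.zero_le _
      · intro i
        by_cases hi : i ∈ g.support
        · exact (Finset.le_sup (f := fun i => (g.coeff i).natDegree) hi).trans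
            (Nat.le_add_left _ _)
        · rw [mem_support_iff, not_not] at hi
          rw [hi, natDegree_zero]
          exact Nat.zero_le _
    let a := f.natDegree
    let b := g.natDegree
    let σ := (Fin a × Fin (e + 1)) ⊕ (Fin b × Fin (e + 1))
    let R := MvPolynomial σ K
    let U : R[X][X] := G a e (fun q => MvPolynomial.X (Sum.inl q))
    let W : R[X][X] := G b e (fun q => MvPolynomial.X (Sum.inr q))
    let P : R[X][X] := U * W - h.map (mapRingHom (MvPolynomial.C))
    let I : Ideal R := Ideal.span (Set.range fun st : ℕ × ℕ => (P.coeff st.1).coeff st.2)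
    -- evaluation at a point of an extension
    have key : ∀ (T : Type) [Field T] [Algebra K T] (x : σ → T),
        P.map (mapRingHom (MvPolynomial.aeval x : R →ₐ[K] T).toRingHom) =
          G a e (fun q => x (Sum.inl q)) * G b e (fun q => x (Sum.inr q)) -
            h.map (mapRingHom (algebraMap K T)) := by
      intro T _ _ x
      show (U * W - h.map (mapRingHom (MvPolynomial.C))).map _ = _
      rw [Polynomial.map_sub, Polynomial.map_mul]
      have e1 : U.map (mapRingHom (MvPolynomial.aeval x : R →ₐ[K] T).toRingHom) =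
          G a e (fun q => x (Sum.inl q)) := by
        rw [G_map]
        apply congrArg
        funext q
        exact MvPolynomial.aeval_X _ _
      have e2 : W.map (mapRingHom (MvPolynomial.aeval x : R →ₐ[K] T).toRingHom) =
          G b e (fun q => x (Sum.inr q)) := by
        rw [G_map]
        apply congrArg
        funext q
        exact MvPolynomial.aeval_X _ _
      rw [e1, e2, Polynomial.map_map, mapRingHom_comp]
      apply congrArg
      apply congrArg (fun z => h.map (mapRingHom z))
      ext r
      exact MvPolynomial.aeval_C _ _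
    -- the ideal is proper
    let xL : σ → L := Sum.elim (fun q => (f.coeff q.1).coeff q.2) (fun q => (g.coeff q.1).coeff q.2)
    have hPL : P.map (mapRingHom (MvPolynomial.aeval xL : R →ₐ[K] L).toRingHom) = 0 := by
      rw [key L xL]
      have e1 : G a e (fun q => xL (Sum.inl q)) = f := (eq_G f hf e hef).symm
      have e2 : G b e (fun q => xL (Sum.inr q)) = g := (eq_G g hg e heg).symm
      rw [e1, e2, hfg, sub_self]
    have hI : I ≠ ⊤ := by
      intro htop
      have hle : I ≤ RingHom.ker (MvPolynomial.aeval xL : R →ₐ[K] L).toRingHom := by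
        rw [Ideal.span_le]
        rintro r ⟨⟨s, t⟩, rfl⟩
        show (MvPolynomial.aeval xL : R →ₐ[K] L).toRingHom ((P.coeff s).coeff t) = 0
        have h1 : ((P.map (mapRingHom (MvPolynomial.aeval xL : R →ₐ[K] L).toRingHom)).coeff
            s).coeff t = 0 := by rw [hPL, coeff_zero, coeff_zero]
        rw [coeff_map, coe_mapRingHom, coeff_map] at h1
        exact h1
      rw [htop] at hle
      have h1 : (1 : R) ∈ RingHom.ker (MvPolynomial.aeval xL : R →ₐ[K] L).toRingHom :=
        hle Submodule.mem_top
      rw [RingHom.mem_ker, map_one] at h1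
      exact one_ne_zero h1
    obtain ⟨M, hM, hIM⟩ := Ideal.exists_le_maximal I hI
    obtain ⟨x, hx⟩ := (MvPolynomial.isMaximal_iff_eq_vanishingIdeal_singleton (K := K)).1 hM
    have hPK : P.map (mapRingHom (MvPolynomial.aeval x : R →ₐ[K] K).toRingHom) = 0 := by
      ext s t
      rw [coeff_map, coe_mapRingHom, coeff_map, coeff_zero, coeff_zero]
      have h1 : (P.coeff s).coeff t ∈ M := hIM (Ideal.subset_span ⟨(s, t), rfl⟩)
      rw [hx, MvPolynomial.mem_vanishingIdeal_singleton_iff] at h1
      exact h1
    rw [key K x, sub_eq_zero] at hPK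
    have hh : h.map (mapRingHom (algebraMap K K)) = h := by
      rw [Algebra.algebraMap_self, mapRingHom_id, Polynomial.map_id]
    rw [hh] at hPK
    rcases hK.2 _ _ (G_monic _ _ _) (G_monic _ _ _) hPK with h1 | h1
    · rw [G_natDegree] at h1
      exact hf0 h1
    · rw [G_natDegree] at h1
      exact hg0 h1

end Pool.Agent.FHQ.H2
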