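import Pool.Agent.FHQ.StmtsW

set_option autoImplicit false

noncomputable section

namespace Pool.Agent.FHQ.H2

open Polynomial

section
variable {k : Type} [Field k]

theorem dX_add (F G : k[X][X]) : dX (F + G) = dX F + dX G := by
  ext b : 1
  rw [coeff_dX, coeff_add, coeff_add, derivative_add, coeff_dX, coeff_dX]

theorem dX_mul (F G : k[X][X]) : dX (F * G) = dX F * G + F * dX G := by
  ext b : 1
  rw [coeff_dX, coeff_mul, derivative_sum, coeff_add, coeff_mul, coeff_mul,
    ← Finset.sum_add_distrib]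
  refine Finset.sum_congr rfl fun x _ => ?_
  rw [derivative_mul, coeff_dX, coeff_dX]

theorem Dv_add (h F G : k[X][X]) : Dv h (F + G) = Dv h F + Dv h G := by
  unfold Dv
  rw [dX_add, derivative_add]
  ring

theorem Dv_mul (h F G : k[X][X]) : Dv h (F * G) = Dv h F * G + F * Dv h G := by
  unfold Dv
  rw [dX_mul, derivative_mul]
  ring

theorem Dv_one (h : k[X][X]) : Dv h 1 = 0 := by
  have h1 := Dv_mul h 1 1
  rw [mul_one, mul_one, one_mul] at h1
  have h2 : Dv h 1 + 0 = Dv h 1 + Dv h 1 := by rw [add_zero]; exact h1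
  exact (add_left_cancel h2).symm

theorem Dv_pow (h G : k[X][X]) (n : ℕ) :
    Dv h (G ^ (n + 1)) = ((n + 1 : ℕ) : k[X][X]) * G ^ n * Dv h G := by
  induction n with
  | zero => simp
  | succ n ih =>
    rw [pow_succ, Dv_mul, ih]
    push_cast
    ring

theorem Dv_pow_char (p : ℕ) [Fact p.Prime] [CharP k p] (h G : k[X][X]) : Dv h (G ^ p) = 0 := by
  obtain ⟨n, hn⟩ : ∃ n, p = n + 1 := ⟨p - 1, by have := (Fact.out : p.Prime).pos; omega⟩
  have h0 : ((p : ℕ) : k[X][X]) = 0 := CharP.cast_eq_zero (k[X][X]) p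
  have h1 := Dv_pow h G n
  rw [← hn, h0, zero_mul, zero_mul] at h1
  exact h1

theorem WD_sub {e W : ℕ} {F G : k[X][X]} (hF : WD e W F) (hG : WD e W G) :
    WD e W (F - G) := by
  intro b hb
  rw [coeff_sub] at hb ⊢
  by_cases h1 : F.coeff b = 0
  · rw [h1, zero_sub] at hb ⊢
    rw [natDegree_neg]
    exact hG b fun h => hb (by rw [h, neg_zero])
  · by_cases h2 : G.coeff b = 0
    · rw [h2, sub_zero]
      exact hF b h1
    · have e1 := hF b h1
      have e2 := hG b h2
      have e3 := natDegree_sub_le (F.coeff b) (G.coeff b)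
      omega

theorem WD_mul {e W W' : ℕ} {F G : k[X][X]} (hF : WD e W F) (hG : WD e W' G) :
    WD e (W + W') (F * G) := by
  intro b hb
  rw [coeff_mul] at hb ⊢
  have hterm : ∀ x ∈ Finset.HasAntidiagonal.antidiagonal b, F.coeff x.1 * G.coeff x.2 ≠ 0 →
      (F.coeff x.1 * G.coeff x.2).natDegree + e * b ≤ W + W' := by
    intro x hx hne
    rw [Finset.HasAntidiagonal.mem_antidiagonal] at hx
    have e1 := hF x.1 (left_ne_zero_of_mul hne)
    have e2 := hG x.2 (right_ne_zero_of_mul hne)
    have e3 := natDegree_mul_le (p := F.coeff x.1) (q := G.coeff x.2)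
    rw [← hx, Nat.mul_add]
    omega
  obtain ⟨x, hx, hne⟩ := Finset.exists_ne_zero_of_sum_ne_zero hb
  have h1 := hterm x hx hne
  have h2 : (∑ x ∈ Finset.HasAntidiagonal.antidiagonal b, F.coeff x.1 * G.coeff x.2).natDegree ≤
      W + W' - e * b := by
    apply natDegree_sum_le_of_forall_le
    intro y hy
    by_cases h0 : F.coeff y.1 * G.coeff y.2 = 0
    · rw [h0, natDegree_zero]; exact Nat.zero_le _
    · have := hterm y hy h0
      omega
  omega

theorem WD_dX {e W : ℕ} {F : k[X][X]} (hF : WD e W F) : WD e W (dX F) := by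
  intro b hb
  rw [coeff_dX] at hb ⊢
  have h0 : F.coeff b ≠ 0 := by
    intro h
    rw [h, derivative_zero] at hb
    exact hb rfl
  have h1 := hF b h0
  have h2 := natDegree_derivative_le (F.coeff b)
  omega

theorem WD_der {e W : ℕ} {F : k[X][X]} (hF : WD e W F) : WD e W (derivative F) := by
  intro b hb
  rw [coeff_derivative] at hb ⊢
  have h0 : F.coeff (b + 1) ≠ 0 := left_ne_zero_of_mul hb
  have h1 := hF (b + 1) h0
  have h2 := natDegree_mul_le (p := F.coeff (b + 1)) (q := ((b : k[X]) + 1))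
  have h3 : ((b : k[X]) + 1).natDegree = 0 := by
    have : ((b : k[X]) + 1) = ((b + 1 : ℕ) : k[X]) := by push_cast; ring
    rw [this, natDegree_natCast]
  rw [h3] at h2
  rw [Nat.mul_add] at h1
  omega

theorem WD_h {d e : ℕ} {h : k[X][X]} (hm : Mh d e h) : WD e (d * e) h := by
  intro b hb
  have hle : b ≤ h.natDegree := le_natDegree_of_ne_zero hb
  rw [hm.deg] at hle
  rcases Nat.lt_or_ge b d with hlt | hge
  · have h1 := hm.cof b
    calc (h.coeff b).natDegree + e * b ≤ e + e * b := by omega
      _ = e * (b + 1) := by ring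
      _ ≤ e * d := Nat.mul_le_mul_left _ hlt
      _ = d * e := Nat.mul_comm _ _
  · have hbd : b = d := le_antisymm hle hge
    have h1 : h.coeff b = 1 := by
      rw [hbd, ← hm.deg]
      exact hm.mon
    rw [h1, natDegree_one, hbd, Nat.zero_add, Nat.mul_comm]

end

theorem dve : DveStmt := by
  intro k _ p _ _ d e h hm
  have hD : ∀ W (F : k[X][X]), WD e W F → WD e (W + d * e) (Dv h F) := by
    intro W F hF
    unfold Dv
    apply WD_sub
    · rw [Nat.add_comm]
      exact WD_mul (WD_der (WD_h hm)) (WD_dX hF)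
    · rw [Nat.add_comm]
      exact WD_mul (WD_dX (WD_h hm)) (WD_der hF)
  refine ⟨Dv_add h, Dv_mul h, ?_, hD, ?_, fun W W' F G => WD_mul⟩
  · intro n F G
    induction n with
    | zero => rfl
    | succ n ih =>
      rw [Function.iterate_succ_apply', ih, Dv_mul, Dv_pow_char p, mul_zero, add_zero,
        Function.iterate_succ_apply']
  · intro n W F hF
    induction n with
    | zero =>
      rw [Nat.zero_mul, Nat.add_zero]
      exact hF
    | succ n ih =>
      rw [Function.iterate_succ_apply']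
      have h1 := hD _ _ ih
      have h2 : W + (n + 1) * (d * e) = W + n * (d * e) + d * e := by ring
      rw [h2]
      exact h1

end Pool.Agent.FHQ.H2
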