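import Pool.Agent.FHQ.StmtsU

set_option autoImplicit false

noncomputable section

namespace Pool.Agent.FHQ.H2

theorem ldj : LdjStmt := by
  classical
  intro L _ f K hfK n b hb hyp
  suffices h : ∀ m : ℕ, ∀ c : Fin n → L, (∀ i, c i ∈ K) → ∑ i, c i * b i = 0 →
      (Finset.univ.filter fun i => c i ≠ 0).card ≤ m → ∀ i, c i = 0 by
    intro c hc hs
    exact h _ c hc hs le_rfl
  intro m
  induction m with
  | zero =>
    intro c _ _ hcard i
    by_contra hi
    have h0 := Finset.card_eq_zero.1 (Nat.le_zero.1 hcard)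
    have : i ∈ (Finset.univ.filter fun i => c i ≠ 0) := by
      rw [Finset.mem_filter]
      exact ⟨Finset.mem_univ _, hi⟩
    rw [h0] at this
    exact absurd this (Finset.notMem_empty i)
  | succ m ih =>
    intro c hc hs hcard j
    by_contra hj
    have hc1 : ∀ i, (c j)⁻¹ * c i ∈ K := fun i => K.mul_mem (K.inv_mem (hc j)) (hc i)
    have hs1 : ∑ i, ((c j)⁻¹ * c i) * b i = 0 := by
      have : ∑ i, ((c j)⁻¹ * c i) * b i = (c j)⁻¹ * ∑ i, c i * b i := by
        rw [Finset.mul_sum]
        exact Finset.sum_congr rfl fun i _ => by ring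
      rw [this, hs, mul_zero]
    have hs2 : ∑ i, f ((c j)⁻¹ * c i) * b i = 0 := by
      have h1 : f (∑ i, ((c j)⁻¹ * c i) * b i) = 0 := by rw [hs1, map_zero]
      rw [map_sum] at h1
      rw [← h1]
      exact Finset.sum_congr rfl fun i _ => by rw [map_mul f ((c j)⁻¹ * c i) (b i), hb i]
    have hd := ih (fun i => f ((c j)⁻¹ * c i) - (c j)⁻¹ * c i)
      (fun i => K.sub_mem (hfK _ (hc1 i)) (hc1 i)) (by
        have : ∑ i, (f ((c j)⁻¹ * c i) - (c j)⁻¹ * c i) * b i =
            ∑ i, f ((c j)⁻¹ * c i) * b i - ∑ i, ((c j)⁻¹ * c i) * b i := by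
          rw [← Finset.sum_sub_distrib]
          exact Finset.sum_congr rfl fun i _ => by ring
        rw [this, hs1, hs2, sub_zero]) (by
        have hsub : (Finset.univ.filter fun i => f ((c j)⁻¹ * c i) - (c j)⁻¹ * c i ≠ 0) ⊆
            (Finset.univ.filter fun i => c i ≠ 0).erase j := by
          intro i hi
          rw [Finset.mem_filter] at hi
          rw [Finset.mem_erase, Finset.mem_filter]
          refine ⟨?_, Finset.mem_univ _, ?_⟩
          · rintro rfl
            apply hi.2
            rw [inv_mul_cancel₀ hj, map_one, sub_self]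
          · intro h0
            apply hi.2
            rw [h0, mul_zero, map_zero, sub_self]
        have h2 := Finset.card_le_card hsub
        rw [Finset.card_erase_of_mem (by
          rw [Finset.mem_filter]; exact ⟨Finset.mem_univ _, hj⟩)] at h2
        omega)
    have h0 := hyp (fun i => (c j)⁻¹ * c i) (fun i => ⟨hc1 i, sub_eq_zero.1 (hd i)⟩) hs1 j
    have h1 : (c j)⁻¹ * c j = 0 := h0
    rw [inv_mul_cancel₀ hj] at h1
    exact one_ne_zero h1

end Pool.Agent.FHQ.H2
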